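import Pool.Agent.MWGQ.Stmts

/-!
# Normalisation of the exponents, period `n` (row NOB of squad MWGQ)

Problem MP_23468a_al.
-/

set_option autoImplicit false

namespace Pool.Agent.MWGQ.H81

open Pool.Agent.Helper14_MV Pool.Agent.Helper2_MV
open Pool.Agent.MWK (pre)
open Pool.Agent.MWF (gaml)
open Pool.Agent.MWGN (Nm WC WT Tau Ns nl sg nn N1 N2 K0 Kb Kc T2 gh)
open Pool.Agent.MWGQ

variable {β : FIC}

theorem pw_one (k c : ℕ) : pw k [c] = List.replicate k c := by
  unfold pw
  induction k with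
  | zero => rfl
  | succ k ih => rw [List.replicate_succ, List.flatten_cons, ih, List.replicate_succ]; rfl

/-- a letter which is not the first occurrence may be multiplied -/
theorem gpow' {n : ℕ} (hP : ∀ (X u : List ℕ) (a b : ℕ), 1 ≤ a → 1 ≤ b → a ≡ b [MOD n] →
    RR β (X ++ (u ++ pw a X)) (X ++ (u ++ pw b X))) (c k : ℕ) (hk : 1 ≤ k) (hk1 : k ≡ 1 [MOD n])
    (u q : List ℕ) (hc : c ∈ u) :
    RR β (u ++ (List.replicate k c ++ q)) (u ++ c :: q) := by
  obtain ⟨u1, u2, rfl⟩ := List.append_of_mem hc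
  have h1 := hP [c] u2 k 1 hk le_rfl hk1
  rw [pw_one, pw_one] at h1
  have h2 := ((RR.refl (β := β) u1).append h1).append (RR.refl q)
  simpa using h2

theorem fmc (g g' : ℕ → List ℕ) (l : List ℕ) (hl : ∀ r ∈ l, RR β (g r) (g' r)) :
    RR β (l.flatMap g) (l.flatMap g') := by
  induction l with
  | nil => exact RR.refl _
  | cons r l ih =>
    rw [List.flatMap_cons, List.flatMap_cons]
    exact (hl r (by simp)).append (ih (fun s hs => hl s (List.mem_cons_of_mem _ hs)))

theorem tl {n : ℕ} (hP : ∀ (X u : List ℕ) (a b : ℕ), 1 ≤ a → 1 ≤ b → a ≡ b [MOD n] →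
    RR β (X ++ (u ++ pw a X)) (X ++ (u ++ pw b X))) (S L f : ℕ → ℕ) (l : List ℕ) : ∀ u : List ℕ,
    (∀ r ∈ l, L r ∈ u ∧ 1 ≤ f r ∧ f r ≡ 1 [MOD n]) →
    RR β (u ++ l.flatMap (fun r => S r :: List.replicate (f r) (L r)))
      (u ++ l.flatMap (fun r => [S r] ++ [L r])) := by
  induction l with
  | nil => intro u _; exact RR.refl _
  | cons r l ih =>
    intro u hu
    obtain ⟨h1, h2, h2'⟩ := hu r (by simp)
    have h3 := gpow' hP (L r) (f r) h2 h2' (u ++ [S r])
      (l.flatMap (fun r => S r :: List.replicate (f r) (L r))) (List.mem_append_left _ h1)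
    have h4 := ih (u ++ [S r, L r]) (fun s hs =>
      ⟨List.mem_append_left _ (hu s (List.mem_cons_of_mem _ hs)).1,
        (hu s (List.mem_cons_of_mem _ hs)).2⟩)
    have e1 : u ++ (r :: l).flatMap (fun r => S r :: List.replicate (f r) (L r)) =
        (u ++ [S r]) ++ (List.replicate (f r) (L r) ++
          l.flatMap (fun r => S r :: List.replicate (f r) (L r))) := by
      simp
    have e2 : (u ++ [S r]) ++ L r :: l.flatMap (fun r => S r :: List.replicate (f r) (L r)) =
        (u ++ [S r, L r]) ++ l.flatMap (fun r => S r :: List.replicate (f r) (L r)) := by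
      simp
    have e3 : (u ++ [S r, L r]) ++ l.flatMap (fun r => [S r] ++ [L r]) =
        u ++ (r :: l).flatMap (fun r => [S r] ++ [L r]) := by
      simp
    rw [e1, ← e3]
    rw [e2] at h3
    exact β.trans h3 h4

theorem nob (hPWX : PwxStmt) : NobStmt := by
  intro n β h ν τ m hτ i j e f hi hi' hj hj' he hf P hx hy
  obtain ⟨hP1, hP, -⟩ := hPWX n β h
  have hn := h.pos
  have s1 := gpow' hP ν.x i hi hi' (P ++ [ν.a])
    ((List.range m).flatMap (fun r => ν.L r :: List.replicate (e r) (ν.C r)) ++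
      ν.L m :: (List.replicate j ν.y ++ ν.b ::
        τ.flatMap (fun r => ν.S r :: List.replicate (f r) (ν.L r))))
    (List.mem_append_left _ hx)
  have s2 : RR β ((List.range m).flatMap (fun r => ν.L r :: List.replicate (e r) (ν.C r)))
      (bd n (sg ν.L) (sg ν.C) m) := by
    apply fmc
    intro r hr
    obtain ⟨h1, h2⟩ := he r (List.mem_range.1 hr)
    have h3 : e r ≡ n + 1 [MOD n] := by
      refine h2.trans ?_
      unfold Nat.ModEq
      rw [Nat.add_mod_left]
    have h4 := hP1 [ν.C r] (e r) (n + 1) h1 (by omega) h3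
    rw [pw_one] at h4
    exact (RR.refl (β := β) [ν.L r]).append h4
  have s3 := gpow' hP ν.y j hj hj' (P ++ ν.a :: ν.x :: (bd n (sg ν.L) (sg ν.C) m ++ [ν.L m]))
    (ν.b :: τ.flatMap (fun r => ν.S r :: List.replicate (f r) (ν.L r)))
    (List.mem_append_left _ hy)
  have s4 := tl hP ν.S ν.L f τ
    (P ++ ν.a :: ν.x :: (bd n (sg ν.L) (sg ν.C) m ++ [ν.L m, ν.y, ν.b])) (by
      intro r hr
      have hrm := (hτ.2 r).1 hr
      refine ⟨?_, hf r hrm⟩
      rcases Nat.lt_or_ge r m with h1 | h1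
      · apply List.mem_append_right
        apply List.mem_cons_of_mem
        apply List.mem_cons_of_mem
        apply List.mem_append_left
        rw [bd, List.mem_flatMap]
        exact ⟨r, List.mem_range.2 h1, by simp [sg]⟩
      · have h2 : r = m := le_antisymm hrm h1
        subst h2
        simp)
  have s2' := ((RR.refl (β := β) (P ++ [ν.a, ν.x])).append s2).append
    (RR.refl (ν.L m :: (List.replicate j ν.y ++ ν.b ::
        τ.flatMap (fun r => ν.S r :: List.replicate (f r) (ν.L r)))))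
  have t1 : RR β (P ++ ν.a :: (List.replicate i ν.x ++
      ((List.range m).flatMap (fun r => ν.L r :: List.replicate (e r) (ν.C r)) ++
        ν.L m :: (List.replicate j ν.y ++ ν.b ::
          τ.flatMap (fun r => ν.S r :: List.replicate (f r) (ν.L r))))))
      (P ++ [ν.a, ν.x] ++
        (List.range m).flatMap (fun r => ν.L r :: List.replicate (e r) (ν.C r)) ++
        (ν.L m :: (List.replicate j ν.y ++ ν.b ::
          τ.flatMap (fun r => ν.S r :: List.replicate (f r) (ν.L r))))) := by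
    simpa using s1
  have t2 : RR β (P ++ [ν.a, ν.x] ++ bd n (sg ν.L) (sg ν.C) m ++
        (ν.L m :: (List.replicate j ν.y ++ ν.b ::
          τ.flatMap (fun r => ν.S r :: List.replicate (f r) (ν.L r)))))
      ((P ++ ν.a :: ν.x :: (bd n (sg ν.L) (sg ν.C) m ++ [ν.L m, ν.y, ν.b])) ++
        τ.flatMap (fun r => ν.S r :: List.replicate (f r) (ν.L r))) := by
    simpa using s3
  have t3 : (P ++ ν.a :: ν.x :: (bd n (sg ν.L) (sg ν.C) m ++ [ν.L m, ν.y, ν.b])) ++
        τ.flatMap (fun r => [ν.S r] ++ [ν.L r]) = P ++ krl n ν τ m := by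
    simp [krl, kr, sg]
  rw [t3] at s4
  exact β.trans t1 (β.trans s2' (β.trans t2 s4))

end Pool.Agent.MWGQ.H81
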